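import Pool.Agent.Helper88.PE
import Pool.Agent.Helper88.EulerGF

/-!
# MP_147bb8_nt, Q1: the two supercongruences for
`∑ (28k²+18k+3) C(2k,k)⁴ C(3k,k) / (-64)^k`

For `n = m+1` one has the WZ identity (Results.MP_147bb8_nt.Divisibility.wz of the library)
`∑_{k ≤ m} a_k/(-64)^k = 12 n² C(2n,n)²/16^n ∑_{j ≤ m} (1/2)_j (2n)_j (1-2n)_j / j!³`.
For `n = p` the truncated sum `G(x) = ∑_{j < p} (1/2)_j (x)_j (1-x)_j / j!³` is expanded at `x = 2p`
by means of its closed forms at `x = p` and `x = -p` and a sum of weight three; for `n = (p+1)/2`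
one gets the value at `x = -p` truncated at `(p-1)/2`.
-/

set_option autoImplicit false

open Finset

namespace Pool.Agent.Results.MP_147bb8_nt.BothSums

/-- `a_k = (28k²+18k+3) C(2k,k)⁴ C(3k,k)` -/
def a (k : ℕ) : ℤ :=
  (28 * (k : ℤ) ^ 2 + 18 * k + 3) * ((2 * k).choose k : ℤ) ^ 4 * ((3 * k).choose k : ℤ)

/-- the Euler numbers `E_n = n! [t^n] 2/(e^t + e^(-t))` -/
noncomputable def euler (n : ℕ) : ℚ :=
  (n.factorial : ℚ) * PowerSeries.coeff n
    (2 * (PowerSeries.exp ℚ + PowerSeries.evalNegHom (PowerSeries.exp ℚ))⁻¹)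

/-- `x ≡ y (mod p^m)`: `x - y = p^m z` with the denominator of `z` prime to `p` -/
def Cong (p m : ℕ) (x y : ℚ) : Prop := ∃ z : ℚ, ¬ p ∣ z.den ∧ x - y = (p : ℚ) ^ m * z

lemma a_s (k : ℕ) : (a k : ℚ) / (-64) ^ k = Helper88.PE.s k := by
  unfold a Helper88.PE.s Divisibility.tt
  push_cast
  ring

lemma cong_of_I {p m : ℕ} [Fact p.Prime] {x y : ℚ} (h : Helper857.Pad.I p m (x - y)) : Cong p m x y := by
  obtain ⟨z, hz, e⟩ := h
  exact ⟨z, hz, e⟩

lemma den_dvd' {p : ℕ} (hp : p.Prime) (n : ℤ) (d : ℕ) (hd : ¬ p ∣ d) : ¬ p ∣ ((n : ℚ) / (d : ℚ)).den := by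
  intro h
  apply hd
  have h2 := Rat.den_dvd n d
  rw [Rat.divInt_eq_div] at h2
  have h3 : ((n : ℚ) / (d : ℚ)).den ∣ d := by exact_mod_cast h2
  exact h.trans h3

lemma euler_zero : euler 0 = 1 := by
  have := Helper88.EulerGF.euler_eq 0
  unfold Helper88.EulerGF.euler at this
  unfold euler
  rw [this, R856.eulerE_zero]
  norm_num

/-- **Q1 in full.** For every odd prime `p`,
`∑_{k<p} a_k/(-64)^k ≡ 3p² - (7/2) p⁵ B_{p-3} (mod p⁶)` and
`∑_{k ≤ (p-1)/2} a_k/(-64)^k ≡ 3p² + 6 (-1/p) p⁴ E_{p-3} (mod p⁵)`. -/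
theorem result (p : ℕ) (hp : p.Prime) (h2 : p ≠ 2) :
    Cong p 6 (∑ k ∈ range p, (a k : ℚ) / (-64) ^ k)
      (3 * (p : ℚ) ^ 2 - 7 / 2 * (p : ℚ) ^ 5 * bernoulli (p - 3)) ∧
    Cong p 5 (∑ k ∈ range ((p - 1) / 2 + 1), (a k : ℚ) / (-64) ^ k)
      (3 * (p : ℚ) ^ 2 + 6 * (jacobiSym (-1) p : ℚ) * (p : ℚ) ^ 4 * euler (p - 3)) := by
  have hodd : Odd p := hp.odd_of_ne_two h2
  rcases Nat.lt_or_ge 3 p with h5 | h3
  · have : Fact p.Prime := ⟨hp⟩
    obtain ⟨h, hh⟩ := hodd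
    have hN : 2 * h + 1 = p ^ 1 := by rw [pow_one]; exact hh.symm
    have h1 := Helper88.PE.first (p := p) hN h5
    have h4 := Helper88.PE.second (p := p) hN h5
    have hJ : (jacobiSym (-1) p : ℚ) = (-1) ^ h := by
      rw [jacobiSym.at_neg_one (hp.odd_of_ne_two h2), ZMod.χ₄_nat_eq_if_mod_four]
      rw [if_neg (by omega)]
      rcases Nat.even_or_odd h with he | ho
      · rw [if_pos (by obtain ⟨r, hr⟩ := he; omega), he.neg_one_pow]; norm_num
      · rw [if_neg (by obtain ⟨r, hr⟩ := ho; omega), ho.neg_one_pow]; norm_num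
    have hE : euler (p - 3) = (R856.eulerE (p - 3) : ℚ) := Helper88.EulerGF.euler_eq (p - 3)
    constructor
    · apply cong_of_I
      rw [sum_congr rfl (fun k _ => a_s k)]
      exact h1
    · apply cong_of_I
      rw [sum_congr rfl (fun k _ => a_s k), hJ, hE, show (p - 1) / 2 = h by omega]
      exact h4
  · have hp3 : p = 3 := by
      have := hp.two_le
      omega
    subst hp3
    have b0 : bernoulli (3 - 3) = 1 := by simp
    have e0 : euler (3 - 3) = 1 := euler_zero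
    have j0 : (jacobiSym (-1) 3 : ℚ) = -1 := by
      rw [jacobiSym.at_neg_one (by decide), ZMod.χ₄_nat_eq_if_mod_four]
      norm_num
    have s0 : (a 0 : ℚ) = 3 := by norm_num [a]
    have s1 : (a 1 : ℚ) = 2352 := by norm_num [a]
    have s2 : (a 2 : ℚ) = 2935440 := by
      norm_num [a, show Nat.choose 4 2 = 6 by decide, show Nat.choose 6 2 = 15 by decide]
    constructor
    · refine ⟨((529 : ℤ) : ℚ) / ((256 : ℕ) : ℚ), den_dvd' hp 529 256 (by norm_num), ?_⟩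
      rw [b0, sum_range_succ, sum_range_succ, sum_range_one, s0, s1, s2]
      norm_num
    · refine ⟨((7 : ℤ) : ℚ) / ((4 : ℕ) : ℚ), den_dvd' hp 7 4 (by norm_num), ?_⟩
      rw [show (3 - 1) / 2 + 1 = 2 by norm_num, e0, sum_range_succ, sum_range_one, s0, s1]
      push_cast
      rw [j0]
      norm_num

end Pool.Agent.Results.MP_147bb8_nt.BothSums
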